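import Mathlib

namespace Pool.Agent.Results.MP_3527b9_nt.OuterTerms

/-- pseudoprime to base 2 -/
def IsPsp (n : ℕ) : Prop := 1 < n ∧ ¬ n.Prime ∧ 2 ^ (n - 1) ≡ 1 [MOD n]

/-- super pseudoprime to base 2 -/
def IsSuperPsp (n : ℕ) : Prop :=
  1 < n ∧ ¬ n.Prime ∧ ∀ d, d ∣ n → 1 < d → d.Prime ∨ IsPsp d

theorem all_one (T M : ℕ) (hp : ∀ p, p.Prime → p ∣ T → p ≡ 1 [MOD M]) (d : ℕ) (hd : d ∣ T)
    (h0 : d ≠ 0) : d ≡ 1 [MOD M] := by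
  induction d using induction_on_primes with
  | zero => exact absurd rfl h0
  | one => rfl
  | prime_mul p a hpp ih =>
    have h1 := hp p hpp ((dvd_mul_right p a).trans hd)
    have h2 := ih ((dvd_mul_left a p).trans hd) (by rintro rfl; simp at h0)
    simpa using h1.mul h2

theorem divs (T M : ℕ) (h1 : 2 ^ M ≡ 1 [MOD T]) (hp : ∀ p, p.Prime → p ∣ T → p ≡ 1 [MOD M])
    (d : ℕ) (hd : d ∣ T) (h : 1 < d) : d.Prime ∨ IsPsp d := by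
  by_cases hpr : d.Prime
  · exact Or.inl hpr
  · right
    refine ⟨h, hpr, ?_⟩
    have h2 := all_one T M hp d hd (by omega)
    have h3 : M ∣ d - 1 := (Nat.modEq_iff_dvd' (by omega)).1 h2.symm
    obtain ⟨c, hc⟩ := h3
    rw [hc, pow_mul]
    have h4 : 2 ^ M ≡ 1 [MOD d] := h1.of_dvd hd
    simpa using h4.pow c

theorem ord (p : ℕ) [Fact p.Prime] (n : ℕ) (hn : 0 < n) (a : ZMod p) (ha : a ≠ 0)
    (h1 : a ^ n = 1) (h2 : ∀ q : ℕ, q.Prime → q ∣ n → a ^ (n / q) ≠ 1) : n ∣ p - 1 := by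
  rw [← orderOf_eq_of_pow_and_pow_div_prime hn h1 h2]
  exact ZMod.orderOf_dvd_card_sub_one ha

theorem q235 (q : ℕ) (hq : q.Prime) (j : ℕ) (h : q ∣ 60 * 3 ^ j) : q = 2 ∨ q = 3 ∨ q = 5 := by
  rcases (Nat.Prime.dvd_mul hq).1 h with h | h
  · have h' : q ∣ 2 ^ 2 * 3 * 5 := by simpa using h
    rcases (Nat.Prime.dvd_mul hq).1 h' with h | h
    · rcases (Nat.Prime.dvd_mul hq).1 h with h | h
      · left; exact (Nat.prime_dvd_prime_iff_eq hq Nat.prime_two).1 (hq.dvd_of_dvd_pow h)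
      · right; left; exact (Nat.prime_dvd_prime_iff_eq hq Nat.prime_three).1 h
    · right; right; exact (Nat.prime_dvd_prime_iff_eq hq Nat.prime_five).1 h
  · right; left; exact (Nat.prime_dvd_prime_iff_eq hq Nat.prime_three).1 (hq.dvd_of_dvd_pow h)

/-- residue facts for `y = 4 ^ (3 ^ j)` -/
theorem y_mod (j : ℕ) : (4 ^ (3 ^ j)) % 2 = 0 ∧ (4 ^ (3 ^ j)) % 3 = 1 ∧ (4 ^ (3 ^ j)) % 5 = 4 := by
  induction j with
  | zero => norm_num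
  | succ j ih =>
    obtain ⟨h1, h2, h3⟩ := ih
    rw [pow_succ 3 j, pow_mul]
    refine ⟨?_, ?_, ?_⟩
    · rw [Nat.pow_mod, h1]
    · rw [Nat.pow_mod, h2]
    · rw [Nat.pow_mod, h3]

/-- a prime dividing an integer that is 1 mod 2, 3, 5 is not 2, 3, 5 -/
theorem small (p : ℕ) [Fact p.Prime] (T : ℤ) (hT : (T : ZMod p) = 0) (q : ℕ) (hq : q.Prime)
    (h1 : T % q = 1) : (q : ZMod p) ≠ 0 := by
  intro h
  have h2 : p ∣ q := (ZMod.natCast_eq_zero_iff q p).1 h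
  have h3 : p = q := (Nat.prime_dvd_prime_iff_eq (Fact.out) hq).1 h2
  subst h3
  have h4 : (p : ℤ) ∣ T := (ZMod.intCast_zmod_eq_zero_iff_dvd T p).1 hT
  have h5 := Int.emod_eq_zero_of_dvd h4
  omega

theorem q23 (q : ℕ) (hq : q.Prime) (j : ℕ) (h : q ∣ 48 * 3 ^ j) : q = 2 ∨ q = 3 := by
  rcases (Nat.Prime.dvd_mul hq).1 h with h | h
  · have h' : q ∣ 2 ^ 4 * 3 := by simpa using h
    rcases (Nat.Prime.dvd_mul hq).1 h' with h | h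
    · left; exact (Nat.prime_dvd_prime_iff_eq hq Nat.prime_two).1 (hq.dvd_of_dvd_pow h)
    · right; exact (Nat.prime_dvd_prime_iff_eq hq Nat.prime_three).1 h
  · right; exact (Nat.prime_dvd_prime_iff_eq hq Nat.prime_three).1 (hq.dvd_of_dvd_pow h)

theorem q35 (q : ℕ) (hq : q.Prime) (j : ℕ) (h : q ∣ 15 * 3 ^ j) : q = 3 ∨ q = 5 := by
  rcases (Nat.Prime.dvd_mul hq).1 h with h | h
  · have h' : q ∣ 3 * 5 := by simpa using h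
    rcases (Nat.Prime.dvd_mul hq).1 h' with h | h
    · left; exact (Nat.prime_dvd_prime_iff_eq hq Nat.prime_three).1 h
    · right; exact (Nat.prime_dvd_prime_iff_eq hq Nat.prime_five).1 h
  · left; exact (Nat.prime_dvd_prime_iff_eq hq Nat.prime_three).1 (hq.dvd_of_dvd_pow h)

theorem pow_two_eq {K : Type} [Monoid K] (a Y : K) (j m : ℕ) (hY : Y = (a ^ 2) ^ (3 ^ j)) (n : ℕ)
    (hn : n = 2 * m * 3 ^ j) : a ^ n = Y ^ m := by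
  rw [hY, ← pow_mul, ← pow_mul, hn]
  congr 1
  ring

theorem primeB (p : ℕ) [Fact p.Prime] (j : ℕ) (Y : ZMod p) (hYd : Y = (2 ^ 2) ^ (3 ^ j))
    (h : Y ^ 8 - Y ^ 4 + 1 = 0) (h2 : (2 : ZMod p) ≠ 0) (h3 : (3 : ZMod p) ≠ 0) :
    48 * 3 ^ j ∣ p - 1 := by
  apply ord p (48 * 3 ^ j) (by positivity) 2 h2
  · rw [pow_two_eq 2 Y j 24 hYd _ (by ring)]
    linear_combination (Y ^ 12 - 1) * (Y ^ 4 + 1) * h
  · intro q hq hqd
    rcases q23 q hq j hqd with rfl | rfl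
    · rw [pow_two_eq 2 Y j 12 hYd _ (by omega)]
      intro h'
      exact h2 (by linear_combination (Y ^ 4 + 1) * h - h')
    · rw [pow_two_eq 2 Y j 8 hYd _ (by omega)]
      intro h'
      exact h3 (by linear_combination (2 + Y ^ 4) * h - (1 + Y ^ 4) * h')

theorem primeC (p : ℕ) [Fact p.Prime] (j : ℕ) (Y : ZMod p) (hYd : Y = (2 ^ 2) ^ (3 ^ j))
    (h : Y ^ 8 + Y ^ 7 - Y ^ 5 - Y ^ 4 - Y ^ 3 + Y + 1 = 0) (h2 : (2 : ZMod p) ≠ 0)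
    (h3 : (3 : ZMod p) ≠ 0) (h5 : (5 : ZMod p) ≠ 0) :
    60 * 3 ^ j ∣ p - 1 := by
  apply ord p (60 * 3 ^ j) (by positivity) 2 h2
  · rw [pow_two_eq 2 Y j 30 hYd _ (by ring)]
    linear_combination (Y ^ 15 - 1) * (Y ^ 5 + 1) * (Y ^ 2 - Y + 1) * h
  · intro q hq hqd
    rcases q235 q hq j hqd with rfl | rfl | rfl
    · rw [pow_two_eq 2 Y j 15 hYd _ (by omega)]
      intro h'
      exact h2 (by linear_combination (Y ^ 5 + 1) * (Y ^ 2 - Y + 1) * h - h')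
    · rw [pow_two_eq 2 Y j 10 hYd _ (by omega)]
      intro h'
      exact h3 (by linear_combination (2 + Y ^ 5) * (Y ^ 2 - Y + 1) * h - (1 + Y ^ 5) * h')
    · rw [pow_two_eq 2 Y j 6 hYd _ (by omega)]
      intro h'
      exact h5 (by linear_combination (3 + 2 * Y ^ 3) * (Y ^ 4 - Y ^ 3 + Y ^ 2 - Y + 1) * h
        - (3 + 2 * Y ^ 3) * (Y ^ 6 - Y ^ 3 + 2) * h' + 4 * h')

theorem primeA (p : ℕ) [Fact p.Prime] (j : ℕ) (Y : ZMod p) (hYd : Y = (2 ^ 2) ^ (3 ^ j))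
    (h : Y ^ 8 - Y ^ 7 + Y ^ 5 - Y ^ 4 + Y ^ 3 - Y + 1 = 0) (h2 : (2 : ZMod p) ≠ 0)
    (h3 : (3 : ZMod p) ≠ 0) (h5 : (5 : ZMod p) ≠ 0) :
    15 * 3 ^ j ∣ p - 1 := by
  have e : ∀ m n : ℕ, n = m * 3 ^ j → ((2 : ZMod p) ^ 2) ^ n = Y ^ m := by
    intro m n hn
    rw [hYd, hn, mul_comm m, pow_mul ((2 : ZMod p) ^ 2)]
  apply ord p (15 * 3 ^ j) (by positivity) (2 ^ 2) (pow_ne_zero 2 h2)
  · rw [e 15 _ rfl]
    linear_combination (Y ^ 5 - 1) * (Y ^ 2 + Y + 1) * h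
  · intro q hq hqd
    rcases q35 q hq j hqd with rfl | rfl
    · rw [e 5 _ (by omega)]
      intro h'
      exact h3 (by linear_combination (Y ^ 2 + Y + 1) * h - (Y ^ 5 + 2) * h')
    · rw [e 3 _ (by omega)]
      intro h'
      exact h5 (by linear_combination (Y ^ 4 + Y ^ 3 + Y ^ 2 + Y + 1) * h
        - (Y ^ 9 + 2 * Y ^ 6 + 3 * Y ^ 3 + 4) * h')

theorem modEq_of (T M : ℕ) (h : (T : ℤ) ∣ 2 ^ M - 1) : 2 ^ M ≡ 1 [MOD T] := by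
  have h1 : (1 : ℤ) ≡ 2 ^ M [ZMOD T] := Int.modEq_iff_dvd.2 h
  have h2 : ((2 ^ M : ℕ) : ℤ) ≡ ((1 : ℕ) : ℤ) [ZMOD T] := by
    push_cast
    exact h1.symm
  exact (Int.natCast_modEq_iff).1 h2

theorem one_mod (p M : ℕ) (hp : p.Prime) (h : M ∣ p - 1) : p ≡ 1 [MOD M] :=
  ((Nat.modEq_iff_dvd' hp.one_lt.le).2 h).symm

theorem ne2 (p : ℕ) [Fact p.Prime] (j : ℕ) (Y : ZMod p) (hYd : Y = (2 ^ 2) ^ (3 ^ j))
    (h : Y = 0 → False) : (2 : ZMod p) ≠ 0 := by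
  intro h0
  apply h
  rw [hYd, h0]
  simp

theorem ne3 (p : ℕ) [Fact p.Prime] (j : ℕ) (Y : ZMod p) (hYd : Y = (2 ^ 2) ^ (3 ^ j))
    (h : Y = 1 → False) : (3 : ZMod p) ≠ 0 := by
  intro h0
  apply h
  have : (2 ^ 2 : ZMod p) = 1 := by linear_combination h0
  rw [hYd, this, one_pow]

theorem ne5 (p : ℕ) [Fact p.Prime] (j : ℕ) (Y : ZMod p) (hYd : Y = (2 ^ 2) ^ (3 ^ j))
    (h : Y = -1 → False) : (5 : ZMod p) ≠ 0 := by
  intro h0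
  apply h
  have : (2 ^ 2 : ZMod p) = -1 := by linear_combination h0
  rw [hYd, this]
  exact Odd.neg_one_pow (Odd.pow (by decide))

theorem dA (y : ℤ) : y ^ 8 - y ^ 7 + y ^ 5 - y ^ 4 + y ^ 3 - y + 1 ∣ y ^ 15 - 1 :=
  ⟨(y ^ 5 - 1) * (y ^ 2 + y + 1), by ring⟩

theorem dB (y : ℤ) : y ^ 8 - y ^ 4 + 1 ∣ y ^ 24 - 1 :=
  ⟨(y ^ 12 - 1) * (y ^ 4 + 1), by ring⟩

theorem dC (y : ℤ) : y ^ 8 + y ^ 7 - y ^ 5 - y ^ 4 - y ^ 3 + y + 1 ∣ y ^ 30 - 1 :=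
  ⟨(y ^ 15 - 1) * (y ^ 5 + 1) * (y ^ 2 - y + 1), by ring⟩

theorem cast0 (p T : ℕ) (f : ℤ) (hf : (T : ℤ) = f) (hp : p ∣ T) : ((f : ℤ) : ZMod p) = 0 := by
  rw [← hf, Int.cast_natCast]
  exact (ZMod.natCast_eq_zero_iff T p).2 hp

theorem hY (p j y : ℕ) (hy : y = 4 ^ (3 ^ j)) : ((y : ℕ) : ZMod p) = (2 ^ 2) ^ (3 ^ j) := by
  rw [hy]; push_cast; norm_num

theorem pA (p : ℕ) (hp : p.Prime) (j y : ℕ) (hy : y = 4 ^ (3 ^ j)) (T : ℕ)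
    (hT : (T : ℤ) = (y : ℤ) ^ 8 - y ^ 7 + y ^ 5 - y ^ 4 + y ^ 3 - y + 1) (hd : p ∣ T) :
    p ≡ 1 [MOD 30 * 3 ^ j] := by
  haveI : Fact p.Prime := ⟨hp⟩
  apply one_mod p _ hp
  have h := cast0 p _ _ hT hd
  push_cast at h
  rw [hY p j y hy] at h
  generalize hYd : ((2 ^ 2) ^ (3 ^ j) : ZMod p) = Y at h
  have h2 : (2 : ZMod p) ≠ 0 := ne2 p j Y hYd.symm (fun hy0 => by
    subst hy0; exact one_ne_zero (α := ZMod p) (by linear_combination h))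
  have h3 : (3 : ZMod p) ≠ 0 := ne3 p j Y hYd.symm (fun hy0 => by
    subst hy0; exact one_ne_zero (α := ZMod p) (by linear_combination h))
  have h5 : (5 : ZMod p) ≠ 0 := ne5 p j Y hYd.symm (fun hy0 => by
    subst hy0; exact one_ne_zero (α := ZMod p) (by linear_combination h))
  have h15 := primeA p j Y hYd.symm h h2 h3 h5
  have hp2 : p ≠ 2 := by
    intro h0
    apply h2
    have := (ZMod.natCast_eq_zero_iff 2 p).2 h0.dvd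
    exact_mod_cast this
  have hodd : p % 2 = 1 := hp.eq_two_or_odd.resolve_left hp2
  have hev : 2 ∣ p - 1 := by omega
  have hcop : Nat.Coprime 2 (15 * 3 ^ j) := by
    rw [Nat.coprime_two_left]
    exact Odd.mul (by decide) (Odd.pow (by decide))
  have := hcop.mul_dvd_of_dvd_of_dvd hev h15
  rwa [← mul_assoc] at this

theorem pB (p : ℕ) (hp : p.Prime) (j y : ℕ) (hy : y = 4 ^ (3 ^ j)) (T : ℕ)
    (hT : (T : ℤ) = (y : ℤ) ^ 8 - y ^ 4 + 1) (hd : p ∣ T) :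
    p ≡ 1 [MOD 48 * 3 ^ j] := by
  haveI : Fact p.Prime := ⟨hp⟩
  apply one_mod p _ hp
  have h := cast0 p _ _ hT hd
  push_cast at h
  rw [hY p j y hy] at h
  generalize hYd : ((2 ^ 2) ^ (3 ^ j) : ZMod p) = Y at h
  have h2 : (2 : ZMod p) ≠ 0 := ne2 p j Y hYd.symm (fun hy0 => by
    subst hy0; exact one_ne_zero (α := ZMod p) (by linear_combination h))
  have h3 : (3 : ZMod p) ≠ 0 := ne3 p j Y hYd.symm (fun hy0 => by
    subst hy0; exact one_ne_zero (α := ZMod p) (by linear_combination h))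
  exact primeB p j Y hYd.symm h h2 h3

theorem pC (p : ℕ) (hp : p.Prime) (j y : ℕ) (hy : y = 4 ^ (3 ^ j)) (T : ℕ)
    (hT : (T : ℤ) = (y : ℤ) ^ 8 + y ^ 7 - y ^ 5 - y ^ 4 - y ^ 3 + y + 1) (hd : p ∣ T) :
    p ≡ 1 [MOD 60 * 3 ^ j] := by
  haveI : Fact p.Prime := ⟨hp⟩
  apply one_mod p _ hp
  have h := cast0 p _ _ hT hd
  push_cast at h
  rw [hY p j y hy] at h
  generalize hYd : ((2 ^ 2) ^ (3 ^ j) : ZMod p) = Y at h
  have h2 : (2 : ZMod p) ≠ 0 := ne2 p j Y hYd.symm (fun hy0 => by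
    subst hy0; exact one_ne_zero (α := ZMod p) (by linear_combination h))
  have h3 : (3 : ZMod p) ≠ 0 := ne3 p j Y hYd.symm (fun hy0 => by
    subst hy0; exact one_ne_zero (α := ZMod p) (by linear_combination h))
  have h5 : (5 : ZMod p) ≠ 0 := ne5 p j Y hYd.symm (fun hy0 => by
    subst hy0; exact one_ne_zero (α := ZMod p) (by linear_combination h))
  exact primeC p j Y hYd.symm h h2 h3 h5

/-- the three terms for a given `j` -/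
theorem terms (j : ℕ) : ∃ A r : ℕ, j < r ∧ IsSuperPsp A ∧
    (Nat.Prime (A + r) ∨ IsSuperPsp (A + r)) ∧ IsSuperPsp (A + 2 * r) := by
  set k := 3 ^ j with hk
  have hkpos : 0 < k := by positivity
  have hkodd : k % 2 = 1 := by
    rw [hk, Nat.pow_mod]; norm_num
  obtain ⟨hm2, hm3, hm5⟩ := y_mod j
  rw [← hk] at hm2 hm3 hm5
  set y : ℕ := 4 ^ k with hy
  obtain ⟨m, hm⟩ : ∃ m, k = 2 * m + 1 := ⟨k / 2, by omega⟩
  set z : ℕ := 2 ^ m with hz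
  set x : ℕ := 2 ^ k with hx
  have hxz : x = 2 * z ^ 2 := by
    rw [hx, hz, hm, ← pow_mul, pow_succ, mul_comm m 2, mul_comm]
  have hyx : y = x ^ 2 := by
    rw [hy, hx, ← pow_mul, mul_comm k 2, pow_mul]; norm_num
  have hz1 : 1 ≤ z := Nat.one_le_two_pow
  have hx2 : 2 ≤ x := by rw [hxz]; nlinarith
  have hy4 : 4 ≤ y := by rw [hyx]; nlinarith
  have hyj : j < y := by
    have h1 : j < k := Nat.lt_pow_self (by norm_num)
    have h2 : k < y := Nat.lt_pow_self (by norm_num)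
    omega
  obtain ⟨t, ht⟩ := Nat.exists_eq_add_of_le hz1
  obtain ⟨s, hs⟩ := Nat.exists_eq_add_of_le hx2
  -- factors
  obtain ⟨a1, ha1⟩ : ∃ a : ℕ, (a : ℤ) = (x : ℤ) ^ 8 - x ^ 7 + x ^ 5 - x ^ 4 + x ^ 3 - x + 1 :=
    ⟨151 + 635 * s + 1182 * s ^ 2 + 1265 * s ^ 3 + 849 * s ^ 4 + 365 * s ^ 5 + 98 * s ^ 6 + 15 * s ^ 7 + s ^ 8,
      by rw [hs]; push_cast; ring⟩
  obtain ⟨a2, ha2⟩ : ∃ a : ℕ, (a : ℤ) = (x : ℤ) ^ 8 + x ^ 7 - x ^ 5 - x ^ 4 - x ^ 3 + x + 1 :=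
    ⟨331 + 1349 * s + 2354 * s ^ 2 + 2303 * s ^ 3 + 1389 * s ^ 4 + 531 * s ^ 5 + 126 * s ^ 6 + 17 * s ^ 7 + s ^ 8,
      by rw [hs]; push_cast; ring⟩
  have hxZ : (2 : ℤ) ≤ x := by exact_mod_cast hx2
  have hsZ : (x : ℤ) = 2 + s := by rw [hs]; push_cast; ring
  have hs0 : (0 : ℤ) ≤ s := by positivity
  have ha1' : 1 < a1 := by
    have : (1 : ℤ) < a1 := by
      rw [ha1, hsZ]
      have : (2 + (s : ℤ)) ^ 8 - (2 + s) ^ 7 + (2 + s) ^ 5 - (2 + s) ^ 4 + (2 + s) ^ 3 - (2 + s) + 1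
        = 151 + 635 * s + 1182 * s ^ 2 + 1265 * s ^ 3 + 849 * s ^ 4 + 365 * s ^ 5 + 98 * s ^ 6 + 15 * s ^ 7 + s ^ 8 := by ring
      rw [this]
      have : (0 : ℤ) ≤ 635 * s + 1182 * s ^ 2 + 1265 * s ^ 3 + 849 * s ^ 4 + 365 * s ^ 5 + 98 * s ^ 6 + 15 * s ^ 7 + s ^ 8 := by positivity
      linarith
    exact_mod_cast this
  have ha2' : 1 < a2 := by
    have : (1 : ℤ) < a2 := by
      rw [ha2, hsZ]
      have : (2 + (s : ℤ)) ^ 8 + (2 + s) ^ 7 - (2 + s) ^ 5 - (2 + s) ^ 4 - (2 + s) ^ 3 + (2 + s) + 1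
        = 331 + 1349 * s + 2354 * s ^ 2 + 2303 * s ^ 3 + 1389 * s ^ 4 + 531 * s ^ 5 + 126 * s ^ 6 + 17 * s ^ 7 + s ^ 8 := by ring
      rw [this]
      have : (0 : ℤ) ≤ 1349 * s + 2354 * s ^ 2 + 2303 * s ^ 3 + 1389 * s ^ 4 + 531 * s ^ 5 + 126 * s ^ 6 + 17 * s ^ 7 + s ^ 8 := by positivity
      linarith
    exact_mod_cast this
  have htZ : (z : ℤ) = 1 + t := by rw [ht]; push_cast; ring
  obtain ⟨c1, hc1, hc1'⟩ : ∃ a : ℕ, (a : ℤ) = 1 + 2 * z + 2 * z ^ 2 + 4 * z ^ 3 + 8 * z ^ 4 + 16 * z ^ 5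
      + 24 * z ^ 6 + 32 * z ^ 7 + 48 * z ^ 8 + 64 * z ^ 9 + 96 * z ^ 10 + 128 * z ^ 11 + 128 * z ^ 12
      + 128 * z ^ 13 + 128 * z ^ 14 + 256 * z ^ 15 + 256 * z ^ 16 ∧ 1 < a :=
    ⟨1 + 2 * z + 2 * z ^ 2 + 4 * z ^ 3 + 8 * z ^ 4 + 16 * z ^ 5
      + 24 * z ^ 6 + 32 * z ^ 7 + 48 * z ^ 8 + 64 * z ^ 9 + 96 * z ^ 10 + 128 * z ^ 11 + 128 * z ^ 12
      + 128 * z ^ 13 + 128 * z ^ 14 + 256 * z ^ 15 + 256 * z ^ 16, by push_cast; ring, by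
        have : 0 ≤ 2 * z ^ 2 + 4 * z ^ 3 + 8 * z ^ 4 + 16 * z ^ 5
          + 24 * z ^ 6 + 32 * z ^ 7 + 48 * z ^ 8 + 64 * z ^ 9 + 96 * z ^ 10 + 128 * z ^ 11 + 128 * z ^ 12
          + 128 * z ^ 13 + 128 * z ^ 14 + 256 * z ^ 15 + 256 * z ^ 16 := by positivity
        omega⟩
  obtain ⟨c2, hc2, hc2'⟩ : ∃ a : ℕ, (a : ℤ) = 1 - 2 * z + 2 * z ^ 2 - 4 * z ^ 3 + 8 * z ^ 4 - 16 * z ^ 5
      + 24 * z ^ 6 - 32 * z ^ 7 + 48 * z ^ 8 - 64 * z ^ 9 + 96 * z ^ 10 - 128 * z ^ 11 + 128 * z ^ 12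
      - 128 * z ^ 13 + 128 * z ^ 14 - 256 * z ^ 15 + 256 * z ^ 16 ∧ 1 < a :=
    ⟨61 + 1142 * t + 9838 * t ^ 2 + 51964 * t ^ 3 + 188832 * t ^ 4 + 501472 * t ^ 5 + 1008568 * t ^ 6
      + 1569632 * t ^ 7 + 1913040 * t ^ 8 + 1834112 * t ^ 9 + 1379936 * t ^ 10 + 806784 * t ^ 11
      + 359552 * t ^ 12 + 118144 * t ^ 13 + 27008 * t ^ 14 + 3840 * t ^ 15 + 256 * t ^ 16,
      by rw [htZ]; push_cast; ring, by
        have : 0 ≤ 1142 * t + 9838 * t ^ 2 + 51964 * t ^ 3 + 188832 * t ^ 4 + 501472 * t ^ 5 + 1008568 * t ^ 6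
          + 1569632 * t ^ 7 + 1913040 * t ^ 8 + 1834112 * t ^ 9 + 1379936 * t ^ 10 + 806784 * t ^ 11
          + 359552 * t ^ 12 + 118144 * t ^ 13 + 27008 * t ^ 14 + 3840 * t ^ 15 + 256 * t ^ 16 := by positivity
        omega⟩
  have hyZ : (y : ℤ) = (x : ℤ) ^ 2 := by rw [hyx]; push_cast; ring
  have hxzZ : (x : ℤ) = 2 * (z : ℤ) ^ 2 := by rw [hxz]; push_cast; ring
  have hA : ((a1 * a2 : ℕ) : ℤ) = (y : ℤ) ^ 8 - y ^ 7 + y ^ 5 - y ^ 4 + y ^ 3 - y + 1 := by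
    push_cast; rw [ha1, ha2, hyZ]; ring
  have hC : ((c1 * c2 : ℕ) : ℤ) = (y : ℤ) ^ 8 + y ^ 7 - y ^ 5 - y ^ 4 - y ^ 3 + y + 1 := by
    push_cast; rw [hc1, hc2, hyZ, hxzZ]; ring
  obtain ⟨w, hw⟩ := Nat.exists_eq_add_of_le hy4
  obtain ⟨r, hr, hrj⟩ : ∃ r : ℕ, (r : ℤ) = (y : ℤ) ^ 7 - y ^ 5 - y ^ 3 + y ∧ j < r := by
    refine ⟨y * ((3 + w) * (5 + w)) ^ 2 * (y ^ 2 + 1), ?_, ?_⟩
    · push_cast; rw [hw]; push_cast; ring
    · have h1 : 1 ≤ ((3 + w) * (5 + w)) ^ 2 * (y ^ 2 + 1) := Nat.one_le_iff_ne_zero.2 (by positivity)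
      calc j < y := hyj
        _ = y * 1 := (mul_one y).symm
        _ ≤ y * (((3 + w) * (5 + w)) ^ 2 * (y ^ 2 + 1)) := Nat.mul_le_mul_left y h1
        _ = _ := by ring
  have hB : ((a1 * a2 + r : ℕ) : ℤ) = (y : ℤ) ^ 8 - y ^ 4 + 1 := by
    rw [Nat.cast_add, hA, hr]; ring
  have hC' : a1 * a2 + 2 * r = c1 * c2 := by
    have : ((a1 * a2 + 2 * r : ℕ) : ℤ) = ((c1 * c2 : ℕ) : ℤ) := by
      rw [Nat.cast_add, hA, Nat.cast_mul, hr, hC]; push_cast; ring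
    exact_mod_cast this
  have hy2 : ∀ n, (2 : ℤ) ^ (2 * n * k) = (y : ℤ) ^ n := by
    intro n
    rw [hy]; push_cast
    rw [show (4 : ℤ) = 2 ^ 2 by norm_num, ← pow_mul, ← pow_mul]
    congr 1; ring
  have hAB : 1 < a1 * a2 :=
    lt_of_lt_of_le ha1' (Nat.le_mul_of_pos_right a1 (lt_trans Nat.zero_lt_one ha2'))
  have hCC : 1 < c1 * c2 :=
    lt_of_lt_of_le hc1' (Nat.le_mul_of_pos_right c1 (lt_trans Nat.zero_lt_one hc2'))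
  refine ⟨a1 * a2, r, hrj, ⟨hAB, Nat.not_prime_mul ha1'.ne' ha2'.ne', ?_⟩, ?_, ?_⟩
  · apply divs (a1 * a2) (30 * k)
    · apply modEq_of
      rw [show 30 * k = 2 * 15 * k from rfl, hy2 15, hA]
      exact dA y
    · intro p hp hpd
      exact pA p hp j y hy _ hA hpd
  · by_cases hpr : Nat.Prime (a1 * a2 + r)
    · exact Or.inl hpr
    · right
      refine ⟨lt_of_lt_of_le hAB (Nat.le_add_right _ _), hpr, ?_⟩
      apply divs (a1 * a2 + r) (48 * k)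
      · apply modEq_of
        rw [show 48 * k = 2 * 24 * k from rfl, hy2 24, hB]
        exact dB y
      · intro p hp hpd
        exact pB p hp j y hy _ hB hpd
  · rw [hC']
    refine ⟨hCC, Nat.not_prime_mul hc1'.ne' hc2'.ne', ?_⟩
    apply divs (c1 * c2) (60 * k)
    · apply modEq_of
      rw [show 60 * k = 2 * 30 * k from rfl, hy2 30, hC]
      exact dC y
    · intro p hp hpd
      exact pC p hp j y hy _ hC hpd

/-- There are infinitely many three-term arithmetic progressions `x, x + r, x + 2r` whose outer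
terms are super pseudoprimes and whose middle term is a prime or a super pseudoprime. -/
theorem result : {q : ℕ × ℕ | 0 < q.2 ∧ IsSuperPsp q.1 ∧
    (Nat.Prime (q.1 + q.2) ∨ IsSuperPsp (q.1 + q.2)) ∧ IsSuperPsp (q.1 + 2 * q.2)}.Infinite := by
  apply Set.Infinite.of_image Prod.snd
  apply Set.infinite_of_forall_exists_gt
  intro n
  obtain ⟨A, r, hr, h1, h2, h3⟩ := terms n
  exact ⟨r, ⟨(A, r), ⟨by simp only; omega, h1, h2, h3⟩, rfl⟩, hr⟩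

end Pool.Agent.Results.MP_3527b9_nt.OuterTerms

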